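import Pool.Agent.Helper28.HM.Final

/-!
# `1`-h-minimality implies `ω`-h-minimality
-/

set_option autoImplicit false

universe u v w

namespace Pool.Agent.Results.MP_5cb3d8_lc.OneImpliesOmega

open FirstOrder FirstOrder.Language Pool.Agent.Helper28.HM

/-- Let `(K, O)` be a non-trivially valued field of equicharacteristic `0`, with an `L`-structure,
`L` containing the symbols `+`, `·`, `𝒪`. If the theory of `K` is `1`-h-minimal, then it is
`ω`-h-minimal. -/
theorem result {L : FirstOrder.Language.{v, w}} (V : ValLang L) (K : Type u) [Field K]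
    [L.Structure K] (O : ValuationSubring K) (hV : IsValuedModel V K O) (hO : O ≠ ⊤)
    (hchar : CharZero (IsLocalRing.ResidueField O)) :
    HMin V K 1 → HMin V K ⊤ :=
  fun h => Pool.Agent.Helper28.HM.main hV (good_of_char hO hchar) h

end Pool.Agent.Results.MP_5cb3d8_lc.OneImpliesOmega
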